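import Pool.Agent.H64.BR.Disc
import Pool.Agent.H64.BR.UNI
import Pool.Agent.H64.BR.GRO

set_option autoImplicit false

/-!
# MP_16b0ee_an: the exponent `9 / 8` for the second negative moment of `ψ'`

The bound of the question implies Brennan's conjecture: the mean of `|ψ'|^(-2)` over `|z| = R` grows
at most like `(R² / (R² - 1)) ^ (1 + ε)`. Here this is proved with the exponent `9 / 8`, for all of
`Σ`, with a constant which does not depend on `ψ`. Nothing is assumed on `ψ`. Consequences: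

* the part of the integral of Q1 over the points where `Re h ≤ - u log (R² / (R² - 1))` is bounded,
  uniformly in `R` and `ψ`, if `a + 9 / 8 ≤ 2 u` (for every `a ≤ 7 / 8` there is such a `u ≤ 1`);
* the means of `|ψ'|^(-t)`, `t ≥ 2`, have the exponent `t - 7 / 8`;
* `|ψ'|^(-91/50)` is integrable with respect to area, uniformly in `Σ`;
* the same for normalised univalent functions `f` in the disc: exponent `9 / 8` for the mean of
  `|f'|^(-2)`, and `|f'|^(-91/50)` is area integrable (Brennan's conjecture for `p ≤ 191 / 50`).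

The proof. Let `K(ζ, z) = (1/z - 1/ζ) / (ψ(1/z) - ψ(1/ζ))`, a symmetric holomorphic function of two
variables in the disc, `K = ∑ ν_ab ζ^a z^b`, and `g(ζ) = K(ζ, ζ) = 1 / ψ'(1/ζ)`.

1. (AREA) `K(ζ, z) / (1 - ζ/z)` is a function of `ψ(1/z)`, so by the area theorem its Laurent
   coefficients `C_n(ζ)` in `z` satisfy `∑ n |C_n|² ≤ |g|² x / (1 - x)²`, `x = |ζ|²`
   (`C_(-k) = g ζ^k`).
2. (DPS, FS, SYM) `C_n(ζ) = ∑_m T_n^m ζ^(m-n)` with `T_n^m = ∑_(b ≥ n) ν_(m-b, b)`, and the symmetry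
   of `ν` gives `T_n^m + T_(m+1-n)^m = g_m` for `1 ≤ n ≤ m`, where `g = ∑ g_m ζ^m`.
3. (AVG, LAP, GAM) Parseval on `|ζ|² = x`, then the integration over `x = ρ e^(-y)` against
   `y^(σ+1) e^(-y) dy`, give `σ (σ + 1) ∑_m ρ^m ∑_n n (m+1-n)^(-σ-2) |T_n^m|² ≤
   ∑_m ρ^m (m+1)^(-σ) |g_m|² + (tail)`.
4. (PAIR, SCALE, RIEM) The minimum of the left side under the relation in 2 is computed in each degree:
   it is `κ_m (m+1)^(-σ) |g_m|²`, where `κ_m` is a Riemann sum of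
   `κ = (σ (σ+1) / 2) ∫_0^1 v (1-v) / (v^(σ+3) + (1-v)^(σ+3)) dv`.
5. (CV, NUM, CORE) `κ = 1.001...` for `σ = 9 / 8`, so `∑_m (m+1)^(-σ) |g_m|²` is bounded by a constant.
-/

namespace Pool.Agent.Results.MP_16b0ee_an.BrennanExponent

open Pool.Agent.H64.BR

/-- The point `r e^{iθ}`. -/
noncomputable def circ (r θ : ℝ) : ℂ := (r : ℂ) * Complex.exp ((θ : ℂ) * Complex.I)

/-- `ψ ∈ Σ` and `h = log ψ'` (the branch vanishing at infinity), exactly as in the problem. -/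
def IsSigma (ψ h : ℂ → ℂ) : Prop :=
  DifferentiableOn ℂ ψ {z : ℂ | 1 < ‖z‖} ∧
  Set.InjOn ψ {z : ℂ | 1 < ‖z‖} ∧
  (∃ b : ℂ, Filter.Tendsto (fun z => ψ z - z) (Bornology.cobounded ℂ) (nhds b)) ∧
  DifferentiableOn ℂ h {z : ℂ | 1 < ‖z‖} ∧
  (∀ z : ℂ, 1 < ‖z‖ → Complex.exp (h z) = deriv ψ z) ∧
  Filter.Tendsto h (Bornology.cobounded ℂ) (nhds 0)

/-- The mean of `F` over the circle `|z| = R` with respect to normalised arc length. -/
noncomputable def mean (R : ℝ) (F : ℂ → ℝ) : ℝ :=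
  (1 / (2 * Real.pi)) * ∫ θ in (0:ℝ)..(2 * Real.pi), F (circ R θ)

/-- The part of the integral of Q1 over the points of the circle `|z| = R` where
`Re h ≤ - u log (R² / (R² - 1))`. -/
noncomputable def deepPart (a u R : ℝ) (h : ℂ → ℂ) : ℝ :=
  (1 / (2 * Real.pi)) * ∫ θ in Set.Ioc 0 (2 * Real.pi) ∩
      {θ : ℝ | (h (circ R θ)).re ≤ -(u * Real.log (R ^ 2 / (R ^ 2 - 1)))},
    Real.exp (a * ‖h (circ R θ)‖ ^ 2 / Real.log (R ^ 2 / (R ^ 2 - 1)))

/-- **Result.** There is a constant `C` such that for all `ψ` in `Σ`: the mean of `|ψ'|^(-t)`, `t ≥ 2`,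
over `|z| = R` is at most `C (R² / (R² - 1)) ^ (t - 7/8)` for all `R > 1`; the part of the integral of
Q1 over the points where `Re h ≤ - u log (R² / (R² - 1))` is at most `C` whenever `0 < a` and
`a + 9/8 ≤ 2 u`; and the area integral of `|ψ'|^(-91/50)` over `1 < |z| < 2` is at most `C`. For all
normalised univalent functions `f` in the unit disc the mean of `|f'|^(-2)` over `|z| = r` is at most
`C (1 - r)^(-9/8)`, and the area integral of `|f'|^(-91/50)` over the disc is at most `C`. -/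
theorem result : ∃ C : ℝ,
    (∀ ψ h : ℂ → ℂ, IsSigma ψ h →
      (∀ R : ℝ, 1 < R → ∀ t : ℝ, 2 ≤ t →
        mean R (fun z => ‖deriv ψ z‖ ^ (-t)) ≤ C * (R ^ 2 / (R ^ 2 - 1)) ^ (t - 7 / 8)) ∧
      (∀ R : ℝ, 1 < R → ∀ a u : ℝ, 0 < a → a + 9 / 8 ≤ 2 * u → deepPart a u R h ≤ C) ∧
      ∫⁻ z in {z : ℂ | 1 < ‖z‖ ∧ ‖z‖ < 2}, ENNReal.ofReal (‖deriv ψ z‖ ^ (-(91 / 50) : ℝ)) ≤
        ENNReal.ofReal C) ∧
    (∀ f : ℂ → ℂ, DifferentiableOn ℂ f (Metric.ball 0 1) → Set.InjOn f (Metric.ball 0 1) →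
      f 0 = 0 → deriv f 0 = 1 →
      (∀ r : ℝ, 0 < r → r < 1 →
        mean r (fun z => ‖deriv f z‖ ^ (-2 : ℝ)) ≤ C * (1 - r) ^ (-(9 / 8) : ℝ)) ∧
      ∫⁻ z in Metric.ball (0 : ℂ) 1, ENNReal.ofReal (‖deriv f z‖ ^ (-(91 / 50) : ℝ)) ≤
        ENNReal.ofReal C) := by
  obtain ⟨C₁, hC10, hC1⟩ := sigma_all the_all the_crit pol
  obtain ⟨C₂, hC20, hC2⟩ := disc_all uni gro
  have hπ : 0 < 1 / (2 * Real.pi) := by positivity
  have hπ1 : 1 / (2 * Real.pi) ≤ 1 := by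
    rw [div_le_one (by positivity)]
    have := Real.pi_gt_three
    linarith
  have key : ∀ {I B D : ℝ}, I ≤ B → 0 ≤ B → B ≤ D → (1 / (2 * Real.pi)) * I ≤ D := by
    intro I B D h1 h2 h3
    have h4 := mul_le_mul_of_nonneg_left h1 hπ.le
    have h5 := mul_le_mul_of_nonneg_right hπ1 h2
    linarith
  refine ⟨C₁ + C₂, fun ψ h hS => ⟨?_, ?_, ?_⟩, fun f hf hi h0 h1 => ⟨?_, ?_⟩⟩
  · intro R hR t ht
    have hQ : 0 ≤ (R ^ 2 / (R ^ 2 - 1)) ^ (t - 7 / 8) := by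
      have := Q_ge hR
      positivity
    exact key ((hC1 ψ h hS).1 R hR t ht) (mul_nonneg hC10 hQ)
      (mul_le_mul_of_nonneg_right (by linarith) hQ)
  · intro R hR a u ha hau
    exact key ((hC1 ψ h hS).2.1 R hR a u ha hau) hC10 (by linarith)
  · exact ((hC1 ψ h hS).2.2).trans (ENNReal.ofReal_le_ofReal (by linarith))
  · intro r hr0 hr1
    have hQ : 0 ≤ (1 - r) ^ (-(9 / 8) : ℝ) := Real.rpow_nonneg (by linarith) _
    have h2 := (hC2 f hf hi h0 h1).1 r ⟨hr0, hr1⟩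
    have e : ∀ θ : ℝ, circ r θ = circleMap 0 r θ := fun θ => by
      unfold circ circleMap
      rw [zero_add]
    unfold mean
    simp only [e]
    exact key h2 (mul_nonneg hC20 hQ) (mul_le_mul_of_nonneg_right (by linarith) hQ)
  · exact ((hC2 f hf hi h0 h1).2).trans (ENNReal.ofReal_le_ofReal (by linarith))

end Pool.Agent.Results.MP_16b0ee_an.BrennanExponent
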