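import Pool.Agent.H76.CZ.Disc
import Pool.Agent.H76.CZ.CS2
import Pool.Agent.H76.CZ.PHI

set_option autoImplicit false

/-!
# MP_16b0ee_an: the exponent `0.397` for the first moment of `ψ'`, `0.603` for the coefficients

The bound of the question implies the conjecture of Carleson and Jones: the mean of `|ψ'|` over
`|z| = R` grows at most like `(R² / (R² - 1)) ^ (1 / 4 + ε)`, and the `n`-th coefficient of a bounded
univalent function, or of a function of the class `Σ`, is `O(n ^ (-3/4 + ε))`. Here these are proved with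
the exponents `397 / 1000` and `603 / 1000`, for the whole class `Σ` and for all bounded univalent
functions in the disc, with an absolute constant. Nothing is assumed on `ψ`.

The proof. Let `K(ζ, z) = ((ψ(1/z) - ψ(1/ζ)) / (1/z - 1/ζ))^(1/2)`, a symmetric holomorphic function of
two variables in the disc, `K = ∑ ν_ab ζ^a z^b`, and `g(ζ) = K(ζ, ζ) = ψ'(1/ζ)^(1/2)`. Let `β_k` and `u_k` be
the coefficients of `(1 - x)^(1/2)` and `(1 - x)^(-3/2)` and `T_n^m = ∑_b ν_(m-b, b) β_(b-n)` for all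
integers `n`.

1. For every `j` the coefficient of `ζ^j` in `K(ζ, z) (1 - ζ/z)^(1/2)` is a polynomial in `ψ(1/z)` with the
   Laurent coefficients `T_n^(n+j)`; the area theorem, applied to each of them separately, with the
   weights `(j + 1)^(1-σ)`, bounds the weighted sum over `n ≥ 1` (the positive part) by the weighted sum
   over `n ≤ -1` (the negative part).
2. (CZ/ID2) The symmetry of `ν` gives the one-sided identity, for `m, k ≥ 1`,
   `T_(-k)^m = β_(m+k) (T_m^m + ∑_(n=1)^m (m+k) u_(n-1) T_n^m / (m + k - n - 1/2))`.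
3. (CZ/U2, CS2) By Cauchy's inequality and Wallis' product the negative part in the degree `m` is at most
   `(1 + o(1)) π^(-2) ∑_k ∑_j k (m+k+1)^(-σ) (j+1)^(σ-1) (k+j-1/2)^(-2)` times the positive part.
4. (CZ/LIM3, INT, PHI) The limit of this double sum is the integral of `x (1+x)^(-σ) t^(σ-1) (x+t)^(-2)`
   over `x > 0`, `0 < t < 1`, which is at most `1/σ + (1-σ) (2/σ² - 1 + σ/(σ + 1/2))`; this is less than `π²`
   for `σ = 0.397`. The positive part controls the coefficients of `g`, so the integral of `|g|²` over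
   `|ζ| = r` is at most `C (1 - r)^(-σ)`, uniformly in `Σ`.
5. For `f` univalent and bounded by `M` in the disc apply this to `1 / f(1/z)`; Schwarz's lemma gives
   `|f'| ≤ M² |ψ'|`. The coefficients: Cauchy's formula for `z ψ'` and `z f'`.
-/

namespace Pool.Agent.Results.MP_16b0ee_an.CarlesonJonesExponent

open Pool.Agent.H76.CZ

/-- The point `r e^{iθ}`. -/
noncomputable def circ (r θ : ℝ) : ℂ := (r : ℂ) * Complex.exp ((θ : ℂ) * Complex.I)

/-- `ψ ∈ Σ` and `h = log ψ'` (the branch vanishing at infinity), exactly as in the problem. -/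
def IsSigma (ψ h : ℂ → ℂ) : Prop :=
  DifferentiableOn ℂ ψ {z : ℂ | 1 < ‖z‖} ∧
  Set.InjOn ψ {z : ℂ | 1 < ‖z‖} ∧
  (∃ b : ℂ, Filter.Tendsto (fun z => ψ z - z) (Bornology.cobounded ℂ) (nhds b)) ∧
  DifferentiableOn ℂ h {z : ℂ | 1 < ‖z‖} ∧
  (∀ z : ℂ, 1 < ‖z‖ → Complex.exp (h z) = deriv ψ z) ∧
  Filter.Tendsto h (Bornology.cobounded ℂ) (nhds 0)

/-- The mean of `F` over the circle `|z| = R` with respect to normalised arc length. -/
noncomputable def mean (R : ℝ) (F : ℂ → ℝ) : ℝ :=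
  (1 / (2 * Real.pi)) * ∫ θ in (0:ℝ)..(2 * Real.pi), F (circ R θ)

/-- **Result.** There is a constant `C` such that: for all `ψ` in `Σ` the mean of `|ψ'|` over `|z| = R`
is at most `C (R² / (R² - 1)) ^ (397/1000)` for all `R > 1`, and `|b_n| ≤ C n ^ (-603/1000)` for all `n ≥ 1`,
where `ψ(z) = z + ∑ b_n z ^ (-n)`; for all `f` univalent in the unit disc with `f(0) = 0`, `f'(0) = 1` and
`|f| ≤ M` the mean of `|f'|` over `|z| = r` is at most `C M² (1 - r) ^ (-397/1000)`, and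
`|a_n| ≤ C M² n ^ (-603/1000)` for all `n ≥ 1`, where `f(z) = ∑ a_n z ^ n`. -/
theorem result : ∃ C : ℝ,
    (∀ ψ h : ℂ → ℂ, IsSigma ψ h →
      (∀ R : ℝ, 1 < R →
        mean R (fun z => ‖deriv ψ z‖) ≤ C * (R ^ 2 / (R ^ 2 - 1)) ^ (397 / 1000 : ℝ)) ∧
      (∀ b : ℕ → ℂ, (∀ z : ℂ, 1 < ‖z‖ → HasSum (fun n : ℕ => b n / z ^ n) (ψ z - z)) →
        ∀ n : ℕ, 1 ≤ n → ‖b n‖ ≤ C * (n : ℝ) ^ (-(603 / 1000) : ℝ))) ∧
    (∀ (f : ℂ → ℂ) (M : ℝ), DifferentiableOn ℂ f (Metric.ball 0 1) →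
      Set.InjOn f (Metric.ball 0 1) → f 0 = 0 → deriv f 0 = 1 →
      (∀ z ∈ Metric.ball (0 : ℂ) 1, ‖f z‖ ≤ M) →
      (∀ r : ℝ, 0 < r → r < 1 →
        mean r (fun z => ‖deriv f z‖) ≤ C * M ^ 2 * (1 - r) ^ (-(397 / 1000) : ℝ)) ∧
      (∀ a : ℕ → ℂ, (∀ z ∈ Metric.ball (0 : ℂ) 1, HasSum (fun n : ℕ => a n * z ^ n) (f z)) →
        ∀ n : ℕ, 1 ≤ n → ‖a n‖ ≤ C * M ^ 2 * (n : ℝ) ^ (-(603 / 1000) : ℝ))) := by
  obtain ⟨C, hC0, hC⟩ := mean_exp cs2 phi
  have hπ : 0 < 1 / (2 * Real.pi) := by positivity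
  have hπ1 : 1 / (2 * Real.pi) ≤ 1 := by
    rw [div_le_one (by positivity)]
    have := Real.pi_gt_three
    linarith
  have key : ∀ {I B D : ℝ}, I ≤ B → 0 ≤ B → B ≤ D → (1 / (2 * Real.pi)) * I ≤ D := by
    intro I B D h1 h2 h3
    have h4 := mul_le_mul_of_nonneg_left h1 hπ.le
    have h5 := mul_le_mul_of_nonneg_right hπ1 h2
    linarith
  refine ⟨2 * C, fun ψ h hS => ⟨?_, ?_⟩, fun f M hf hi h0 h1 hM => ⟨?_, ?_⟩⟩
  · intro R hR
    have hQ : 0 ≤ (R ^ 2 / (R ^ 2 - 1)) ^ (397 / 1000 : ℝ) := by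
      have hR2 : 0 < R ^ 2 - 1 := by nlinarith
      positivity
    exact key (sigma_mean hC0 hC hS hR) (mul_nonneg (by positivity) hQ) le_rfl
  · intro b hb n hn
    exact sigma_coef hC0 hC hS hb hn
  · intro r hr0 hr1
    have hQ : 0 ≤ (1 - r) ^ (-(397 / 1000) : ℝ) := Real.rpow_nonneg (by linarith) _
    have h2 := disc_mean hC hf hi h0 h1 hM ⟨hr0, hr1⟩
    have e : ∀ θ : ℝ, circ r θ = circleMap 0 r θ := fun θ => by
      unfold circ circleMap
      rw [zero_add]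
    unfold mean
    simp only [e]
    refine key h2 (mul_nonneg (by positivity) hQ) (mul_le_mul_of_nonneg_right ?_ hQ)
    have h3 : 0 ≤ C * M ^ 2 := by positivity
    nlinarith
  · intro a ha n hn
    refine (disc_coef hC0 hC hf hi h0 h1 hM ha hn).trans (le_of_eq ?_)
    ring

end Pool.Agent.Results.MP_16b0ee_an.CarlesonJonesExponent
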