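import Pool.Agent.H64.CX.Whole
import Pool.Agent.H76.QC.Fam2

set_option autoImplicit false

/-!
# MP_16b0ee_an: the full range `0 < a < 1` for maps with a `k`-quasiconformal extension, `k < √7 / 4`

Let `(ψ_λ)`, `|λ| < 1`, be a family in the class `Σ` such that `ψ_0` is a translation and `λ ↦ ψ_λ(z)` is
holomorphic for every `z`. Then the integral of the question, for `h_λ = log ψ_λ'`, `|λ| ≤ k`, is bounded by
a constant which depends on `a` and `k` only, whenever `a k² < 7 / 16`. For `k < √7 / 4 = 0.661...` this is the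
full range `0 < a < 1` of the question (and more: all `a < 7 / (16 k²)`).

Such families are the holomorphic motions of the exterior of the unit disc by functions of the class `Σ`:
if `ψ ∈ Σ` has a `k`-quasiconformal extension to the plane with the complex dilatation `μ`, `|μ| ≤ k < 1`,
then the solutions `ψ_λ(z) = z + O(1/z)` of the Beltrami equation with the dilatation `λ μ / k` are such a
family, and `ψ_k` is `ψ` up to an additive constant (Ahlfors and Bers; this remark is not part of the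
Lean statement). So the strong form of Marshall's conjecture holds for all functions in `Σ` with a
`k`-quasiconformal extension, `k < √7 / 4`, uniformly. (The library has `a k² ≤ 9 / 50`.)

The proof (Lehto's majorant principle, for the integral of the question). By the hand-in
`WholeClassRange` the integral is bounded by a constant for all of `Σ`, for `a₁ < 7 / 16`. For fixed `z` the
function `h_λ(z) / λ` is holomorphic in the unit disc, and `w ↦ exp (c |w|²)` is convex; by Jensen's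
inequality and the mean value property on the circle `|λ| = ρ < 1` (after a disc automorphism),
`exp (a |h_l(z)|² / L)` is at most a mean of `exp (a₁ |h_λ(z)|² / L)` over the `λ` with `|λ| = ρ`, if
`a |l|² ≤ a₁ ρ²`. Then integrate over `|z| = R` and exchange the integrals; `h_λ(z)` is continuous in
`(λ, z)` because the functions of the class `Σ` are locally equicontinuous with their derivatives.
-/

namespace Pool.Agent.Results.MP_16b0ee_an.QuasiconformalRange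

open Pool.Agent.H76.QC

/-- The point `r e^{iθ}`. -/
noncomputable def circ (r θ : ℝ) : ℂ := (r : ℂ) * Complex.exp ((θ : ℂ) * Complex.I)

/-- `ψ ∈ Σ` and `h = log ψ'` (the branch vanishing at infinity), exactly as in the problem. -/
def IsSigma (ψ h : ℂ → ℂ) : Prop :=
  DifferentiableOn ℂ ψ {z : ℂ | 1 < ‖z‖} ∧
  Set.InjOn ψ {z : ℂ | 1 < ‖z‖} ∧
  (∃ b : ℂ, Filter.Tendsto (fun z => ψ z - z) (Bornology.cobounded ℂ) (nhds b)) ∧
  DifferentiableOn ℂ h {z : ℂ | 1 < ‖z‖} ∧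
  (∀ z : ℂ, 1 < ‖z‖ → Complex.exp (h z) = deriv ψ z) ∧
  Filter.Tendsto h (Bornology.cobounded ℂ) (nhds 0)

/-- The integral of Q1. -/
noncomputable def marshall (a R : ℝ) (h : ℂ → ℂ) : ℝ :=
  (1 / (2 * Real.pi)) * ∫ θ in (0:ℝ)..(2 * Real.pi),
    Real.exp (a * ‖h (circ R θ)‖ ^ 2 / Real.log (R ^ 2 / (R ^ 2 - 1)))

/-- A holomorphic family `(ψ_λ)`, `|λ| < 1`, in `Σ` through a translation: `ψ_λ` is in `Σ`,
`h_λ = log ψ_λ'`, `λ ↦ ψ_λ(z)` is holomorphic in `|λ| < 1` for every `z`, and `ψ_0(z) = z + b`. -/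
def IsFamily (ψ h : ℂ → ℂ → ℂ) : Prop :=
  (∀ l : ℂ, ‖l‖ < 1 → IsSigma (ψ l) (h l)) ∧
  (∀ z : ℂ, 1 < ‖z‖ → DifferentiableOn ℂ (fun l => ψ l z) {l : ℂ | ‖l‖ < 1}) ∧
  ∃ b : ℂ, ∀ z : ℂ, 1 < ‖z‖ → ψ 0 z = z + b

/-- **Result.** Let `0 ≤ k < 1`, `0 < a` and `a k² < 7/16`. The integral of Q1 is bounded, uniformly for all
`R > 1`, all holomorphic families `(ψ_λ)` in `Σ` through a translation and all `|λ| ≤ k`. -/
theorem result (a k : ℝ) (ha : 0 < a) (hk0 : 0 ≤ k) (hk1 : k < 1) (hak : a * k ^ 2 < 7 / 16) :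
    ∃ C : ℝ, ∀ R : ℝ, 1 < R → ∀ ψ h : ℂ → ℂ → ℂ, IsFamily ψ h →
      ∀ l : ℂ, ‖l‖ ≤ k → marshall a R (h l) ≤ C := by
  obtain ⟨a₁, ha₁⟩ : ∃ a₁ : ℝ, a₁ = (a * k ^ 2 + 7 / 16) / 2 := ⟨_, rfl⟩
  have hk2 : 0 ≤ a * k ^ 2 := by positivity
  have h1 : 0 < a₁ := by rw [ha₁]; linarith
  have h2 : a₁ < 7 / 16 := by rw [ha₁]; linarith
  have h3 : a * k ^ 2 < a₁ := by rw [ha₁]; linarith
  obtain ⟨C, hC⟩ := Pool.Agent.H64.CX.whole h1 h2
  obtain ⟨ρ, hρ⟩ : ∃ ρ : ℝ, ρ = max (Real.sqrt (a * k ^ 2 / a₁)) ((1 + k) / 2) := ⟨_, rfl⟩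
  have hq : a * k ^ 2 / a₁ < 1 := (div_lt_one h1).2 h3
  have hq0 : 0 ≤ a * k ^ 2 / a₁ := by positivity
  have hρ1 : ρ < 1 := by
    rw [hρ, max_lt_iff]
    refine ⟨?_, by linarith⟩
    rw [Real.sqrt_lt' one_pos]
    linarith
  have hρk : k < ρ := by
    rw [hρ]
    exact lt_of_lt_of_le (by linarith) (le_max_right _ _)
  have hρ0 : 0 < ρ := lt_of_le_of_lt hk0 hρk
  have hρ2 : a * k ^ 2 / a₁ ≤ ρ ^ 2 := by
    have h4 : Real.sqrt (a * k ^ 2 / a₁) ≤ ρ := by rw [hρ]; exact le_max_left _ _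
    calc a * k ^ 2 / a₁ = Real.sqrt (a * k ^ 2 / a₁) ^ 2 := (Real.sq_sqrt hq0).symm
      _ ≤ ρ ^ 2 := pow_le_pow_left₀ (Real.sqrt_nonneg _) h4 2
  refine ⟨C, fun R hR ψ h hF l hl => ?_⟩
  have hball : {l : ℂ | ‖l‖ < 1} = Metric.ball (0 : ℂ) 1 := by
    ext x
    simp
  have F : Pool.Agent.R250.MC.Fam ψ h := ⟨hF.1, fun z hz => hball ▸ hF.2.1 z hz, hF.2.2⟩
  have hS := hF.1
  have hR2 : 0 < R ^ 2 - 1 := by nlinarith
  have hL : 0 < Real.log (R ^ 2 / (R ^ 2 - 1)) := by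
    apply Real.log_pos
    rw [one_lt_div hR2]
    linarith
  obtain ⟨b, hb⟩ : ∃ b : ℂ, b = l / ρ := ⟨_, rfl⟩
  have hρC : (ρ : ℂ) ≠ 0 := by exact_mod_cast hρ0.ne'
  have hlb : l = ρ * b := by
    rw [hb]
    field_simp
  have hbn : ‖b‖ = ‖l‖ / ρ := by
    rw [hb, norm_div, Complex.norm_real, Real.norm_eq_abs, abs_of_pos hρ0]
  have hb1 : ‖b‖ < 1 := by
    rw [hbn, div_lt_one hρ0]
    exact hl.trans_lt hρk
  have hab : a * ‖b‖ ^ 2 ≤ a₁ := by
    rw [hbn, div_pow, ← mul_div_assoc, div_le_iff₀ (by positivity)]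
    have h5 : a * ‖l‖ ^ 2 ≤ a * k ^ 2 :=
      mul_le_mul_of_nonneg_left (pow_le_pow_left₀ (norm_nonneg _) hl 2) ha.le
    rw [div_le_iff₀ h1] at hρ2
    linarith
  rw [hlb]
  exact mean_le2 (fam_joint F) (fun z hz => fam_diff F hz) (fun z hz => fam_zero F hz) ha.le hL hR hb1 hρ0 hρ1 hab fun l hl => hC R hR (ψ l) (h l) (hS l hl)

end Pool.Agent.Results.MP_16b0ee_an.QuasiconformalRange
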