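import Pool.Agent.H64.CX.Whole

set_option autoImplicit false

/-!
# MP_16b0ee_an: the strong Marshall bound for the whole class `Σ`, in the range `0 < a < 7 / 16`

For every `0 < a < 7 / 16` the integral of the question is bounded by a constant which depends on `a`
only, for all `R > 1` and all `ψ` in the class `Σ`. Nothing is assumed on `ψ`. (The library has
`0 < a < 3 / 16`.)

The proof. Let `f(ζ, z) = log ((ψ(1/z) - ψ(1/ζ)) / (1/z - 1/ζ))`, `H(ζ) = f(ζ, ζ) = h(1/ζ)`, and let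
`α ≠ 0` be a complex number, `|α| ≤ 3 / 8`. Let `exp (-α f(ζ, z)) = ∑ ν_ab ζ^a z^b` (`ν` symmetric),
`β_k = (α)_k / k!`, `u_n = (1 - α)_n / n!`, and for integers `n`, `T_n^m = ∑_b ν_(m-b, b) β_(b-n)`.

1. (helper7: A1, A2, A3) For every `j` the coefficient of `ζ^j` in `exp (-α f(ζ, z)) (1 - ζ/z)^(-α)` is a
   polynomial in `ψ(1/z)`, with the Laurent coefficients `T_n^(n+j)`; by the area theorem
   `∑_(n ≥ 1) n |T_n^(n+j)|² ≤ ∑_(k ≥ 1) k |T_(-k)^(j-k)|²`. Any weights `w_j ≥ 0` can be used; here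
   `w_j = (j + 1)^(-μ)`, `μ = σ + 2 Re α`.
2. (ID) The symmetry of `ν` gives the exact identity, for `m, k ≥ 1`,
   `T_(-k)^m (1/β_(m+k) - 1/β_k) = ∑_(n=1)^m n u_n T_n^m (1/(n + k) + 1/(m + k - n + α))`.
3. (CS) By Cauchy's inequality the negative part in the degree `m` is at most `S_m` times the positive
   part, with an explicit double sum `S_m` which does not depend on `ψ`.
4. (RN, UN, LIM2, RS, LPT) The limit of `S_m` is an explicit double integral (asymptotics of Gamma
   quotients, dominated convergence).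
5. It is less than `1` for `σ = 20/9 |α|²`: for `Re α ≥ 0` by Chebyshev's inequality and
   `4 |sin πα|² B(2 - 2 Re α, 1 + σ + 2 Re α) < π² |1 - α|² σ` (CHEB, PW, CRH, NUMP); for `Re α ≤ 0` by
   integration over the other variable first (FCH, LA, LB, LC, LD, UBN, NUM2).
6. (HID, HBN, CORE, MEAN) The positive part controls the coefficients of `exp (-α H)`, so the mean of
   `|exp (-α H)|²` over `|v| = r` is `O((1 - r)^(-σ))`, uniformly in `Σ`: the means of `|exp (conj t h)|`
   have the exponent `(5/9) |t|²` for all complex `|t| ≤ 3/4`.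
7. (helper76: ToQ1, with the library theorem on the equivalence of Marshall's and Binder's bounds)
   This gives the bound of the question for `a < 7/16`.
-/

namespace Pool.Agent.Results.MP_16b0ee_an.WholeClassRange

/-- The point `r e^{iθ}`. -/
noncomputable def circ (r θ : ℝ) : ℂ := (r : ℂ) * Complex.exp ((θ : ℂ) * Complex.I)

/-- `ψ ∈ Σ` and `h = log ψ'` (the branch vanishing at infinity), exactly as in the problem. -/
def IsSigma (ψ h : ℂ → ℂ) : Prop :=
  DifferentiableOn ℂ ψ {z : ℂ | 1 < ‖z‖} ∧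
  Set.InjOn ψ {z : ℂ | 1 < ‖z‖} ∧
  (∃ b : ℂ, Filter.Tendsto (fun z => ψ z - z) (Bornology.cobounded ℂ) (nhds b)) ∧
  DifferentiableOn ℂ h {z : ℂ | 1 < ‖z‖} ∧
  (∀ z : ℂ, 1 < ‖z‖ → Complex.exp (h z) = deriv ψ z) ∧
  Filter.Tendsto h (Bornology.cobounded ℂ) (nhds 0)

/-- The integral of Q1. -/
noncomputable def marshall (a R : ℝ) (h : ℂ → ℂ) : ℝ :=
  (1 / (2 * Real.pi)) * ∫ θ in (0:ℝ)..(2 * Real.pi),
    Real.exp (a * ‖h (circ R θ)‖ ^ 2 / Real.log (R ^ 2 / (R ^ 2 - 1)))

/-- **Result.** For every `0 < a < 7 / 16` the integral of Q1 is bounded, uniformly for all `R > 1`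
and all `ψ` in `Σ`. -/
theorem result (a : ℝ) (ha0 : 0 < a) (ha : a < 7 / 16) :
    ∃ C : ℝ, ∀ R : ℝ, 1 < R → ∀ ψ h : ℂ → ℂ, IsSigma ψ h → marshall a R h ≤ C :=
  Pool.Agent.H64.CX.whole ha0 ha

end Pool.Agent.Results.MP_16b0ee_an.WholeClassRange
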